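import Mathlib

/-!
# The odd independence ratio of even-dimensional hypercubes tends to one half (MP_5d7181_co, Q2)

Let `d` be even and `2 ^ r ≤ d` with `r ≥ 1`.  Choose `h : Fin d → 𝔽₂ ^ r` all of whose fibres have
odd size and let `T` be the set of vectors `x` of even weight with `∑ i, x i • h i = 0`.  Every
vector `v` of odd weight has an odd number of neighbours in `T`, namely the number of `i` with
`h i = ∑ j, v j • h j`; so it has an odd number of neighbours in the set `S` of the vectors of
even weight outside `T`.  As `|T| ≤ 2 ^ (d - 1) / 2 ^ r`, this gives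
`α_od(Q_d) ≥ (1 - 2 ^ (-r)) 2 ^ (d - 1)`.
-/

set_option autoImplicit false

open SimpleGraph Finset

namespace Pool.Agent.Results.MP_5d7181_co.LimitHalf

section Defs

variable {V : Type*}

/-- `S` is independent and every vertex outside `S` has no neighbour in `S` or an odd number of
neighbours in `S`. -/
def IsOddIndep (G : SimpleGraph V) (S : Finset V) : Prop :=
  (∀ x ∈ S, ∀ y ∈ S, ¬ G.Adj x y) ∧
    ∀ v, v ∉ S → (∀ u ∈ S, ¬ G.Adj v u) ∨ Odd {u | u ∈ S ∧ G.Adj v u}.ncard

/-- The odd independence number: the largest size of an odd independent set. -/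
noncomputable def oddIndepNum (G : SimpleGraph V) : ℕ :=
  sSup {n | ∃ S : Finset V, IsOddIndep G S ∧ S.card = n}

/-- The hypercube `Q_d`: vertices are the `0`-`1` vectors of length `d`, two of them being adjacent
when they differ in exactly one coordinate. -/
def hypercube (d : ℕ) : SimpleGraph (Fin d → ZMod 2) where
  Adj x y := ∃! i, x i ≠ y i
  symm := ⟨fun _ _ ⟨i, h, hu⟩ => ⟨i, Ne.symm h, fun j hj => hu j (Ne.symm hj)⟩⟩
  loopless := ⟨fun _ ⟨_, h, _⟩ => h rfl⟩

end Defs

variable {d : ℕ}

/-- The unit vector. -/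
abbrev un (i : Fin d) : Fin d → ZMod 2 := Pi.single i 1

theorem un_add_un (i : Fin d) : un i + un i = 0 := by
  ext1 j
  have : ∀ a : ZMod 2, a + a = 0 := by decide
  exact this _

theorem zmod2_ne {a b : ZMod 2} (h : a ≠ b) : b = a + 1 := by
  revert a b
  decide

theorem adj_iff (x y : Fin d → ZMod 2) : (hypercube d).Adj x y ↔ ∃ i, y = x + un i := by
  constructor
  · rintro ⟨i, h, hu⟩
    refine ⟨i, ?_⟩
    ext1 j
    by_cases hj : j = i
    · subst hj
      simpa using zmod2_ne h
    · have : x j = y j := by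
        by_contra hne
        exact hj (hu j hne)
      simp [this, hj]
  · rintro ⟨i, rfl⟩
    refine ⟨i, by simp, ?_⟩
    intro j hj
    by_contra hji
    simp [hji] at hj

theorem un_injective (x : Fin d → ZMod 2) : Function.Injective fun i => x + un i := by
  intro i j h
  have h1 : un i = un j := add_left_cancel h
  by_contra hij
  have := congrFun h1 i
  simp [hij] at this

/-- The number of neighbours with a given property. -/
theorem ncard_neighbors (v : Fin d → ZMod 2) (S : Finset (Fin d → ZMod 2)) :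
    {u | u ∈ S ∧ (hypercube d).Adj v u}.ncard = (univ.filter fun i => v + un i ∈ S).card := by
  have h : {u | u ∈ S ∧ (hypercube d).Adj v u} =
      ((univ.filter fun i => v + un i ∈ S).image fun i => v + un i : Finset _) := by
    ext u
    simp only [Set.mem_ofPred_eq, adj_iff, coe_image, Set.mem_image, mem_coe, mem_filter,
      mem_univ, true_and]
    constructor
    · rintro ⟨h, i, rfl⟩
      exact ⟨i, h, rfl⟩
    · rintro ⟨i, h, rfl⟩
      exact ⟨h, i, rfl⟩
  rw [h, Set.ncard_coe_finset, card_image_of_injective _ (un_injective v)]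

/-- There is a map with odd fibres. -/
theorem exists_odd_fibres {β : Type*} [Fintype β] [DecidableEq β] [Nonempty β]
    (hd : Fintype.card β ≤ d) (hpar : Even (d - Fintype.card β)) :
    ∃ h : Fin d → β, ∀ b, Odd (univ.filter fun i => h i = b).card := by
  obtain ⟨b₀⟩ := ‹Nonempty β›
  have hcard : Fintype.card (Fin d) = Fintype.card (β ⊕ Fin (d - Fintype.card β)) := by
    rw [Fintype.card_sum, Fintype.card_fin, Fintype.card_fin]
    omega
  let e := Fintype.equivOfCardEq hcard
  refine ⟨fun i => Sum.elim id (fun _ => b₀) (e i), fun b => ?_⟩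
  rw [card_filter]
  rw [Equiv.sum_comp e (fun x => if Sum.elim id (fun _ => b₀) x = b then 1 else 0)]
  rw [Fintype.sum_sum_type]
  have h1 : (∑ a : β, if Sum.elim id (fun _ : Fin (d - Fintype.card β) => b₀) (Sum.inl a) = b
      then 1 else 0) = 1 := by
    rw [Finset.sum_eq_single b]
    · simp
    · intro a _ ha
      simp [ha]
    · simp
  rw [h1]
  by_cases hb : b₀ = b
  · simp only [Sum.elim_inr, if_true, hb, sum_const, card_univ, Fintype.card_fin,
      smul_eq_mul, mul_one]
    exact Even.one_add hpar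
  · simp [hb]

/-- The sum of the coordinates modulo two. -/
def wt (x : Fin d → ZMod 2) : ZMod 2 := ∑ i, x i

theorem wt_add (x y : Fin d → ZMod 2) : wt (x + y) = wt x + wt y := by
  simp [wt, sum_add_distrib]

theorem wt_un (i : Fin d) : wt (un i) = 1 := by
  simp [wt]

/-- The even vectors. -/
def evens (d : ℕ) : Finset (Fin d → ZMod 2) := univ.filter fun x => wt x = 0

theorem card_evens (hd : 1 ≤ d) : 2 * (evens d).card = 2 ^ d := by
  have h1 : (evens d).card = (univ.filter fun x : Fin d → ZMod 2 => ¬ wt x = 0).card := by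
    refine card_bij' (fun x _ => x + un ⟨0, hd⟩) (fun x _ => x + un ⟨0, hd⟩) ?_ ?_ ?_ ?_
    · intro x hx
      simp only [evens, mem_filter, mem_univ, true_and] at hx ⊢
      rw [wt_add, wt_un, hx]
      decide
    · intro x hx
      simp only [evens, mem_filter, mem_univ, true_and] at hx ⊢
      rw [wt_add, wt_un]
      revert hx
      generalize wt x = a
      revert a
      decide
    · intro x _
      simp only [add_assoc, un_add_un, add_zero]
    · intro x _
      simp only [add_assoc, un_add_un, add_zero]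
  have h2 := card_filter_add_card_filter_not (s := (univ : Finset (Fin d → ZMod 2)))
    (fun x => wt x = 0)
  rw [← h1] at h2
  have h3 : (univ : Finset (Fin d → ZMod 2)).card = 2 ^ d := by
    rw [card_univ, Fintype.card_fun, ZMod.card, Fintype.card_fin]
  rw [h3] at h2
  have h4 : (univ.filter fun x : Fin d → ZMod 2 => wt x = 0).card = (evens d).card := rfl
  omega

theorem isOddIndep_bddAbove (G : SimpleGraph (Fin d → ZMod 2)) :
    BddAbove {n | ∃ S : Finset (Fin d → ZMod 2), IsOddIndep G S ∧ S.card = n} := by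
  refine ⟨Fintype.card (Fin d → ZMod 2), ?_⟩
  rintro k ⟨T, -, rfl⟩
  exact T.card_le_univ

/-- The upper bound `2 ^ (d - 1)`. -/
theorem upper (hd : 1 ≤ d) : 2 * oddIndepNum (hypercube d) ≤ 2 ^ d := by
  suffices h : oddIndepNum (hypercube d) ≤ 2 ^ (d - 1) by
    calc 2 * oddIndepNum (hypercube d) ≤ 2 * 2 ^ (d - 1) := Nat.mul_le_mul_left _ h
      _ = 2 ^ d := by rw [← pow_succ', Nat.sub_add_cancel hd]
  apply csSup_le
  · exact ⟨0, ∅, ⟨by simp, fun v _ => Or.inl (by simp)⟩, by simp⟩
  · rintro k ⟨S, ⟨hS, -⟩, rfl⟩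
    let T := S.image fun x => x + un ⟨0, hd⟩
    have hinj : Function.Injective fun x : Fin d → ZMod 2 => x + un ⟨0, hd⟩ :=
      fun x y h => add_right_cancel h
    have hT : T.card = S.card := card_image_of_injective _ hinj
    have hdis : Disjoint S T := by
      rw [Finset.disjoint_left]
      intro x hx hxT
      obtain ⟨y, hy, rfl⟩ := mem_image.mp hxT
      exact hS y hy _ hx ((adj_iff _ _).mpr ⟨_, rfl⟩)
    have h1 := card_union_of_disjoint hdis
    have h2 : (S ∪ T).card ≤ 2 ^ d := by
      refine (card_le_univ _).trans ?_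
      rw [Fintype.card_fun, ZMod.card, Fintype.card_fin]
    have h3 : 2 ^ d = 2 * 2 ^ (d - 1) := by rw [← pow_succ', Nat.sub_add_cancel hd]
    omega

/-- The lower bound `(1 - 2 ^ (-r)) 2 ^ (d - 1)`. -/
theorem lower (hd : Even d) {r : ℕ} (hr : 1 ≤ r) (hrd : 2 ^ r ≤ d) :
    2 ^ r * 2 ^ d ≤ 2 * (2 ^ r * oddIndepNum (hypercube d)) + 2 ^ d := by
  have hcardβ : Fintype.card (Fin r → ZMod 2) = 2 ^ r := by
    rw [Fintype.card_fun, ZMod.card, Fintype.card_fin]
  have hpar : Even (d - Fintype.card (Fin r → ZMod 2)) := by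
    rw [hcardβ]
    exact (Nat.even_sub hrd).mpr ⟨fun _ => (Nat.even_pow' (by omega)).mpr even_two, fun _ => hd⟩
  obtain ⟨h, hh⟩ := exists_odd_fibres (β := Fin r → ZMod 2) (hcardβ ▸ hrd) hpar
  let H : (Fin d → ZMod 2) → (Fin r → ZMod 2) := fun x => ∑ i, x i • h i
  have Hadd : ∀ x y, H (x + y) = H x + H y := by
    intro x y
    simp [H, add_smul, sum_add_distrib]
  have Hun : ∀ i, H (un i) = h i := by
    intro i
    simp only [H]
    rw [Finset.sum_eq_single i]
    · simp
    · intro j _ hj
      simp [hj]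
    · simp
  let T : Finset (Fin d → ZMod 2) := (evens d).filter fun x => H x = 0
  let S : Finset (Fin d → ZMod 2) := (evens d).filter fun x => ¬ H x = 0
  have hST : T.card + S.card = (evens d).card := card_filter_add_card_filter_not _
  have hzero : ∀ a b : ZMod 2, a + b = 0 ↔ b = a := by decide
  have hzero' : ∀ a b : Fin r → ZMod 2, a + b = 0 ↔ b = a := by
    intro a b
    constructor
    · intro hab
      ext1 i
      exact (hzero _ _).mp (congrFun hab i)
    · rintro rfl
      ext1 i
      exact (hzero _ _).mpr rfl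
  have hwt : ∀ a : ZMod 2, a ≠ 0 → a + 1 = 0 := by decide
  -- `S` is odd independent
  have hS : IsOddIndep (hypercube d) S := by
    constructor
    · intro x hx y hy hadj
      obtain ⟨i, rfl⟩ := (adj_iff _ _).mp hadj
      simp only [S, evens, mem_filter, mem_univ, true_and] at hx hy
      have := hy.1
      rw [wt_add, wt_un, hx.1] at this
      exact absurd this (by decide)
    · intro v hv
      by_cases hwv : wt v = 0
      · left
        intro u hu hadj
        obtain ⟨i, rfl⟩ := (adj_iff _ _).mp hadj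
        simp only [S, evens, mem_filter, mem_univ, true_and] at hu
        have := hu.1
        rw [wt_add, wt_un, hwv] at this
        exact absurd this (by decide)
      · right
        rw [ncard_neighbors]
        have h1 : (univ.filter fun i => v + un i ∈ S) = univ.filter fun i => ¬ h i = H v := by
          ext i
          simp only [S, evens, mem_filter, mem_univ, true_and, wt_add, wt_un, Hadd, Hun, hzero']
          simp [hwt _ hwv]
        have h2 := card_filter_add_card_filter_not (s := (univ : Finset (Fin d)))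
          (fun i => h i = H v)
        rw [h1]
        rw [card_univ, Fintype.card_fin] at h2
        have h3 := hh (H v)
        rw [← h2] at hd
        exact (Nat.even_add.mp hd).not.mp (Nat.not_even_iff_odd.mpr h3) |> Nat.not_even_iff_odd.mp
  have hle : S.card ≤ oddIndepNum (hypercube d) :=
    le_csSup (isOddIndep_bddAbove _) ⟨S, hS, rfl⟩
  -- the cosets of `T`
  have hT : 2 ^ r * T.card ≤ (evens d).card := by
    have hne : ∀ b, ∃ i, h i = b := by
      intro b
      have := (hh b).pos
      obtain ⟨i, hi⟩ := card_pos.mp this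
      exact ⟨i, (mem_filter.mp hi).2⟩
    choose g hg using hne
    have h1 : ((univ : Finset (Fin r → ZMod 2)) ×ˢ T).card = 2 ^ r * T.card := by
      rw [card_product, card_univ, hcardβ]
    rw [← h1]
    refine card_le_card_of_injOn (fun p => p.2 + (un (g p.1) + un (g 0))) ?_ ?_
    · rintro ⟨b, x⟩ hx
      simp only [coe_product, coe_univ, Set.mem_prod, Set.mem_univ, true_and, mem_coe, T, evens,
        mem_filter, mem_univ] at hx
      simp only [evens, mem_coe, mem_filter, mem_univ, true_and, wt_add, wt_un, hx.1]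
      decide
    · rintro ⟨b, x⟩ hx ⟨c, y⟩ hy hxy
      simp only [coe_product, coe_univ, Set.mem_prod, Set.mem_univ, true_and, mem_coe, T, evens,
        mem_filter, mem_univ] at hx hy
      simp only at hxy
      have h2 := congrArg H hxy
      rw [Hadd, Hadd, Hadd, Hadd, Hun, Hun, Hun, hg, hg, hg, hx.2, hy.2] at h2
      simp only [zero_add, add_zero] at h2
      subst h2
      rw [add_right_cancel hxy]
  have h5 := card_evens (d := d) (by
    have : 1 ≤ 2 ^ r := Nat.one_le_two_pow
    omega)
  have h6 : 2 ^ r * (evens d).card = 2 ^ r * T.card + 2 ^ r * S.card := by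
    rw [← hST]
    ring
  have h7 : 2 ^ r * S.card ≤ 2 ^ r * oddIndepNum (hypercube d) := Nat.mul_le_mul_left _ hle
  calc 2 ^ r * 2 ^ d = 2 * (2 ^ r * (evens d).card) := by rw [← h5]; ring
    _ ≤ 2 * (2 ^ r * oddIndepNum (hypercube d)) + 2 ^ d := by omega

/-- `α_od(Q_d) / 2 ^ d → 1 / 2` as `d → ∞` through the even numbers. -/
theorem result : Filter.Tendsto
    (fun m : ℕ => (oddIndepNum (hypercube (2 * m)) : ℝ) / 2 ^ (2 * m)) Filter.atTop
    (nhds (1 / 2)) := by
  have hlim : Filter.Tendsto (fun m : ℕ => (1 / 2 : ℝ) - 1 / (m : ℝ)) Filter.atTop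
      (nhds (1 / 2)) := by
    have := (tendsto_const_nhds (x := (1 / 2 : ℝ)) (f := Filter.atTop (α := ℕ))).sub
      tendsto_one_div_atTop_nhds_zero_nat
    simpa using this
  refine tendsto_of_tendsto_of_tendsto_of_le_of_le' hlim tendsto_const_nhds ?_ ?_
  · filter_upwards [Filter.eventually_ge_atTop 1] with m hm
    have hm0 : (2 * m) ≠ 0 := by omega
    have hr1 : 1 ≤ Nat.log 2 (2 * m) := by
      apply Nat.le_log_of_pow_le (by omega)
      omega
    have hr2 : 2 ^ Nat.log 2 (2 * m) ≤ 2 * m := Nat.pow_log_le_self 2 hm0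
    have hr3 : 2 * m < 2 ^ (Nat.log 2 (2 * m) + 1) := Nat.lt_pow_succ_log_self (by omega) _
    have h := lower (d := 2 * m) (even_two_mul m) hr1 hr2
    set r := Nat.log 2 (2 * m)
    set A := oddIndepNum (hypercube (2 * m))
    have hmr : m ≤ 2 ^ r := by
      rw [pow_succ] at hr3
      omega
    have h' : (2 : ℝ) ^ r * 2 ^ (2 * m) ≤ 2 * (2 ^ r * (A : ℝ)) + 2 ^ (2 * m) := by
      exact_mod_cast h
    have hmr' : (m : ℝ) ≤ 2 ^ r := by exact_mod_cast hmr
    have hmpos : (0 : ℝ) < m := by exact_mod_cast hm
    have hP : (0 : ℝ) < 2 ^ (2 * m) := by positivity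
    have hR : (0 : ℝ) < 2 ^ r := by positivity
    rw [le_div_iff₀ hP]
    have h8 : (2 : ℝ) ^ r * ((1 / 2 - 1 / (2 * 2 ^ r)) * 2 ^ (2 * m)) ≤ 2 ^ r * (A : ℝ) := by
      have : (2 : ℝ) ^ r * ((1 / 2 - 1 / (2 * 2 ^ r)) * 2 ^ (2 * m)) =
          (2 ^ r * 2 ^ (2 * m) - 2 ^ (2 * m)) / 2 := by
        field_simp
      rw [this]
      linarith
    have h9 := le_of_mul_le_mul_left h8 hR
    refine le_trans ?_ h9
    apply mul_le_mul_of_nonneg_right _ hP.le
    have : 1 / (2 * 2 ^ r) ≤ 1 / (m : ℝ) := by
      apply one_div_le_one_div_of_le hmpos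
      linarith
    linarith
  · filter_upwards [Filter.eventually_ge_atTop 1] with m hm
    have h := upper (d := 2 * m) (by omega)
    have h' : 2 * (oddIndepNum (hypercube (2 * m)) : ℝ) ≤ 2 ^ (2 * m) := by exact_mod_cast h
    rw [div_le_iff₀ (by positivity)]
    linarith

end Pool.Agent.Results.MP_5d7181_co.LimitHalf
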